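import Pool.Agent.H66.ZK.Stm

/-! CLS: the class of the points `P + m (P - T)`. -/

set_option autoImplicit false

open Polynomial Pool.Agent.Y720.MZ Pool.Agent.Q35.TT Pool.Agent.Q149.TT Pool.Agent.Q35.ZC
  Pool.Agent.H66.TK Pool.Agent.H66.ZK

namespace Pool.Agent.H44.ZK

theorem seqQ : S_SEQ := Pool.Agent.Q5.ZC.seq Pool.Agent.Q65.ZC.fac Pool.Agent.Q254.ZC.inv
  Pool.Agent.Q231.ZC.TAN.tan Pool.Agent.Q26.ZC.inj

section

variable {F : Type} [Field F]

/-- the class of the point `Q k`; `c` is the leading coefficient at infinity -/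
noncomputable def kq (α : Fin 3 → F) (β : Fin 4 → F) (w t : F) {A : Type} (κ : (Fin 3 → F) → A)
    (c : F) : Option (F × F) → A
  | some a => κ (ph α β w t a.1 a.2)
  | none => κ (pf w t c)

/-- the class of the point `ι Q k` -/
noncomputable def ki (α : Fin 3 → F) (β : Fin 4 → F) (w t : F) {A : Type} (κ : (Fin 3 → F) → A)
    (c : F) : Option (F × F) → A
  | some a => κ (ph α β w t a.1 (-a.2))
  | none => κ (pf w t (-c))

end

theorem cls (hA : S_SCA) (hB : S_SCB) : S_CLS := by
  intro F _ _ α β w t hc hcw h0 A _ κ f hκ u Z hM hdn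
  obtain ⟨hA1, hA2, hA3⟩ := hA F α β w t hc hcw h0
  obtain ⟨hB1, hB2⟩ := hB F α β w t hc hcw h0
  unfold MulPt at hM
  let _ : DecidableEq F := Classical.decEq F
  obtain ⟨hθ, h, hinf, m, X₀, W, h', hm, hD, hu, hZ⟩ := hM
  set θ : F × (Fin 4 → F) := qt α β w t with hθd
  obtain ⟨x, Q, hS, hL, hL'⟩ := seqQ F θ hθ h hinf
  -- the class of `T`
  have hT : κ (p0 w t) + κ (p0 w t) + κ (p1 α β w t) = f := hκ.sec _ hA1
  -- leading coefficients at infinity
  let c : ℕ → F := fun k => x (k - 1) / (2 * θ.1)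
  have h2θ : (2 : F) * θ.1 ≠ 0 := mul_ne_zero two_ne_zero h0
  have hsq : ∀ k, Q k = none → c k ^ 2 = θ.2 3 := by
    intro k hk
    rcases k with _ | k
    · rw [hS.zero] at hk
      exact absurd hk (by simp)
    · obtain ⟨-, -, -, h4⟩ := hS.two k hk
      show (x k / (2 * θ.1)) ^ 2 = θ.2 3
      rw [div_pow, h4]
      field_simp
      ring
  have h1 : ∀ k, κ (p0 w t) + kq α β w t κ (c k) (Q k) + ki α β w t κ (c k) (Q k) = f := by
    intro k
    rcases hQ : Q k with _ | a
    · exact hκ.sec _ (hA3 (c k) (hsq k hQ))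
    · exact hκ.sec _ (hA2 a.1 a.2 (hS.on k a hQ))
  have h3 : ∀ k, κ (p1 α β w t) + ki α β w t κ (c k) (Q k) +
      kq α β w t κ (c (k + 1)) (Q (k + 1)) = f := by
    intro k
    obtain ⟨μ, hμ, hn⟩ := hS.norm k
    rcases hQ : Q k with _ | a
    · rcases k with _ | k
      · rw [hS.zero] at hQ
        exact absurd hQ (by simp)
      · obtain ⟨-, h5, h6, -⟩ := hS.two k hQ
        rcases hQ' : Q (k + 2) with _ | b
        · exact absurd hQ' h5
        · rw [hQ, hQ'] at hn
          have hn' : gp θ (x (k + 1)) ^ 2 - qp θ = C μ * X ^ 2 * (X - C b.1) := by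
            rw [hn]; simp only [lq, mul_one]
          have h7 := hκ.sec _ (hB2 _ _ _ hμ hn')
          have h8 := hS.right (k + 1) b hQ'
          have h9 : x (k + 1) / (2 * θ.1) = -c (k + 1) := by
            show x (k + 1) / (2 * θ.1) = -(x k / (2 * θ.1))
            rw [h6, neg_div]
          rw [h8, h9] at h7
          have h7' : κ (p1 α β w t) + κ (ph α β w t b.1 b.2) + κ (pf w t (-c (k + 1))) = f := h7
          show κ (p1 α β w t) + κ (pf w t (-c (k + 1))) + κ (ph α β w t b.1 b.2) = f
          rw [← h7']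
          abel
    · have h10 := hS.left k a hQ
      rcases hQ' : Q (k + 1) with _ | b
      · rw [hQ, hQ'] at hn
        have hn' : gp θ (x k) ^ 2 - qp θ = C μ * X ^ 2 * (X - C a.1) := by
          rw [hn]; simp only [lq, mul_one]
        have h7 := hκ.sec _ (hB2 _ _ _ hμ hn')
        rw [h10] at h7
        exact h7
      · rw [hQ, hQ'] at hn
        have hn' : gp θ (x k) ^ 2 - qp θ = C μ * X ^ 2 * (X - C a.1) * (X - C b.1) := hn
        have h7 := hκ.sec _ (hB1 _ _ _ _ hμ hn')
        have h8 := hS.right k b hQ'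
        rw [h10, h8] at h7
        exact h7
  -- the points with `τ = 0`
  have hph0 : ph α β w t 0 θ.1 = p0 w t := by
    unfold ph
    simp [hθd]
  have hK : ∀ k : ℕ, kq α β w t κ (c k) (Q k) = (3 * (k : ℤ) + 1) • κ (p0 w t) - (k : ℤ) • f := by
    intro k
    induction k with
    | zero =>
      rw [hS.zero]
      show κ (ph α β w t 0 θ.1) = _
      rw [hph0]
      simp
    | succ k ih =>
      have e1 := h1 k
      have e3 := h3 k
      have e4 : kq α β w t κ (c (k + 1)) (Q (k + 1)) =
          kq α β w t κ (c k) (Q k) + (3 : ℤ) • κ (p0 w t) - f := by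
        have e5 : ki α β w t κ (c k) (Q k) = f - κ (p0 w t) - kq α β w t κ (c k) (Q k) := by
          rw [← e1]; abel
        have e6 : κ (p1 α β w t) = f - κ (p0 w t) - κ (p0 w t) := by
          rw [← hT]; abel
        have e7 : kq α β w t κ (c (k + 1)) (Q (k + 1)) =
            f - κ (p1 α β w t) - ki α β w t κ (c k) (Q k) := by
          rw [← e3]; abel
        rw [e7, e6, e5]
        abel
      rw [e4, ih]
      push_cast
      module
  have hK' : ∀ k : ℕ, ki α β w t κ (c k) (Q k) =
      (3 * (-(k : ℤ) - 1) + 1) • κ (p0 w t) - (-(k : ℤ) - 1) • f := by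
    intro k
    have e5 : ki α β w t κ (c k) (Q k) = f - κ (p0 w t) - kq α β w t κ (c k) (Q k) := by
      rw [← h1 k]; abel
    rw [e5, hK]
    module
  -- the class of `ph u Z`
  have hfin : Z ^ 2 = (qp θ).eval u ∧ ∃ m : ℤ, κ (ph α β w t u Z) =
      (3 * m + 1) • κ (p0 w t) - m • f := by
    rcases m with k | k
    · have hk : k • (.some _ _ h : Pt (tA θ) (tB θ) (tC θ)) = .some X₀ W h' := by
        rw [← hm, Int.ofNat_eq_natCast, natCast_zsmul]
      have hQ : Q k = some (u, Z) := by
        rw [hL k X₀ W h' hk hD, hu, hZ]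
        rfl
      refine ⟨hS.on k _ hQ, k, ?_⟩
      have := hK k
      rw [hQ] at this
      exact this
    · obtain ⟨h'', hn⟩ := neg_mk h'
      have hk : (k + 1) • (.some _ _ h : Pt (tA θ) (tB θ) (tC θ)) = .some X₀ (-W) h'' := by
        rw [← hn, ← hm, negSucc_zsmul, neg_neg]
      have hD' : Pool.Agent.Q35.ZC.dq θ X₀ (- -W) ≠ 0 := by
        rw [neg_neg]
        exact hD
      have hQ : Q k = some (u, -Z) := by
        rw [hL' k X₀ (-W) h'' hk hD', neg_neg, hu, hZ]
        rfl
      refine ⟨?_, -(k : ℤ) - 1, ?_⟩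
      · have := hS.on k _ hQ
        simpa using this
      · have := hK' k
        rw [hQ] at this
        have h3 : ki α β w t κ (c k) (some (u, -Z)) = κ (ph α β w t u (- -Z)) := rfl
        rw [h3, neg_neg] at this
        exact this
  obtain ⟨hZ2, m', hm'⟩ := hfin
  refine ⟨m', ?_⟩
  rw [show κ ![w, 1, t] = κ (p0 w t) from rfl, ← hm']
  by_cases hu0 : u = 0
  · have hz : zz α β w t u Z = 0 := by
      unfold zz
      rw [hu0]
      simp
    have hZ0 : Z = θ.1 := by
      have e1 : Z ^ 2 = θ.1 ^ 2 := by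
        rw [hZ2, hu0]
        simp [Pool.Agent.Q35.ZC.qp]
      have e2 : dn α β w t u Z = θ.1 + Z := by
        unfold dn
        rw [hu0, add_zero]
        rfl
      rw [e2] at hdn
      have e3 : (Z - θ.1) * (θ.1 + Z) = 0 := by linear_combination e1
      rcases mul_eq_zero.1 e3 with e | e
      · exact sub_eq_zero.1 e
      · exact absurd e hdn
    rw [hz, hu0, hZ0, hph0]
    congr 1
    unfold p0
    simp
  · have e1 : ph α β w t u Z =
        dn α β w t u Z • ![w + zz α β w t u Z * (sl α β w t + u), 1, t + zz α β w t u Z] := by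
      have e2 : dn α β w t u Z * zz α β w t u Z = -2 * (cw α w ![1, t] * u) := by
        unfold zz
        field_simp
      unfold ph
      rw [if_neg hu0]
      funext i
      fin_cases i
      · simp only [Fin.zero_eta, Pi.add_apply, Pi.smul_apply, smul_eq_mul, Matrix.cons_val_zero]
        linear_combination -(sl α β w t + u) * e2
      · simp
      · simp
        linear_combination -e2
    rw [e1, hκ.smul _ _ hdn]

end Pool.Agent.H44.ZK
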